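import Mathlib

set_option autoImplicit false

namespace Pool.Agent.N446.FD

open Filter Topology

/-- The sequence `2 cos (k ω)` as an integer combination of `1` and `2 cos ω`, and its conjugate. -/
lemma cheb (s : ℝ) (hs : s ^ 2 = 5) (z w : ℕ → ℝ) (hz0 : z 0 = 2) (hz1 : z 1 = -(3 - s) / 2)
    (hz : ∀ k, z (k + 2) = z 1 * z (k + 1) - z k) (hw0 : w 0 = 2) (hw1 : w 1 = -(3 + s) / 2)
    (hw : ∀ k, w (k + 2) = w 1 * w (k + 1) - w k) (k : ℕ) :
    ∃ A B A' B' : ℤ, z k = A + B * z 1 ∧ w k = A + B * w 1 ∧ z (k + 1) = A' + B' * z 1 ∧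
      w (k + 1) = A' + B' * w 1 := by
  have hz2 : z 1 ^ 2 = -3 * z 1 - 1 := by rw [hz1]; nlinarith
  have hw2 : w 1 ^ 2 = -3 * w 1 - 1 := by rw [hw1]; nlinarith
  induction k with
  | zero => exact ⟨2, 0, 0, 1, by rw [hz0]; simp, by rw [hw0]; simp, by simp, by simp⟩
  | succ k ih =>
    obtain ⟨A, B, A', B', h1, h2, h3, h4⟩ := ih
    refine ⟨A', B', -B' - A, A' - 3 * B' - B, h3, h4, ?_, ?_⟩
    · rw [hz k, h3, h1]; push_cast
      have : z 1 * (↑A' + ↑B' * z 1) = A' * z 1 + B' * z 1 ^ 2 := by ring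
      rw [this, hz2]; ring
    · rw [hw k, h4, h2]; push_cast
      have : w 1 * (↑A' + ↑B' * w 1) = A' * w 1 + B' * w 1 ^ 2 := by ring
      rw [this, hw2]; ring

lemma irr (s ω : ℝ) (hs : s ^ 2 = 5) (hs0 : 0 < s) (hω : 2 * Real.cos ω = -(2 - (1 + s) / 2)) :
    Irrational (ω / Real.pi) := by
  have hsirr : Irrational s := by
    have : s = Real.sqrt 5 := by
      rw [← hs]; exact (Real.sqrt_sq hs0.le).symm
    rw [this]
    exact Nat.Prime.irrational_sqrt (by norm_num : Nat.Prime 5)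
  rintro ⟨r, hr⟩
  have hπ := Real.pi_pos
  -- ω = r π
  have hωr : ω = r * Real.pi := by
    rw [hr]; field_simp
  obtain ⟨N, hN⟩ : ∃ N : ℕ, N = 2 * r.den := ⟨_, rfl⟩
  have hN0 : 0 < N := by rw [hN]; have := r.den_pos; omega
  have hNω : Real.cos (N * ω) = 1 := by
    have h1 : (N : ℝ) * ω = (r.num : ℤ) * (2 * Real.pi) := by
      rw [hωr, hN]
      have h2 : (r : ℝ) = (r.num : ℝ) / (r.den : ℝ) := by exact_mod_cast (Rat.num_div_den r).symm
      have h3 : (r.den : ℝ) ≠ 0 := by exact_mod_cast r.den_pos.ne'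
      rw [h2]; push_cast; field_simp
    rw [h1]
    exact Real.cos_int_mul_two_pi r.num
  obtain ⟨z, hz⟩ : ∃ z : ℕ → ℝ, z = fun k : ℕ => 2 * Real.cos (k * ω) := ⟨_, rfl⟩
  have hz0 : z 0 = 2 := by rw [hz]; simp
  have hz1 : z 1 = -(3 - s) / 2 := by
    rw [hz]; simp only [Nat.cast_one, one_mul]; rw [hω]; ring
  have hzr : ∀ k, z (k + 2) = z 1 * z (k + 1) - z k := by
    intro k
    rw [hz]
    simp only [Nat.cast_one, one_mul]
    have e1 : ((k + 2 : ℕ) : ℝ) * ω = ((k + 1 : ℕ) : ℝ) * ω + ω := by push_cast; ring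
    have e2 : (k : ℝ) * ω = ((k + 1 : ℕ) : ℝ) * ω - ω := by push_cast; ring
    rw [e1, e2, Real.cos_add, Real.cos_sub]
    ring
  -- the conjugate sequence
  have hsl : 2 < s := by nlinarith
  obtain ⟨q, hq⟩ : ∃ q : ℝ, q = Real.sqrt (((3 + s) / 2) ^ 2 - 4) := ⟨_, rfl⟩
  have hq2 : q ^ 2 = ((3 + s) / 2) ^ 2 - 4 := by rw [hq]; exact Real.sq_sqrt (by nlinarith)
  have hq0 : 0 < q := by rw [hq]; apply Real.sqrt_pos.2; nlinarith
  obtain ⟨u, hu⟩ : ∃ u : ℝ, u = ((3 + s) / 2 + q) / 2 := ⟨_, rfl⟩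
  have hu1 : 1 < u := by rw [hu]; linarith
  have huinv : u⁻¹ = ((3 + s) / 2 - q) / 2 := by
    rw [inv_eq_one_div, div_eq_iff (by linarith)]
    rw [hu]; nlinarith
  obtain ⟨w, hw⟩ : ∃ w : ℕ → ℝ, w = fun k : ℕ => (-1) ^ k * (u ^ k + u⁻¹ ^ k) := ⟨_, rfl⟩
  have hw0 : w 0 = 2 := by rw [hw]; norm_num
  have hw1 : w 1 = -(3 + s) / 2 := by
    rw [hw]; simp only [pow_one]; rw [huinv, hu]; ring
  have hw1' : w 1 = -(u + u⁻¹) := by rw [hw]; simp only [pow_one]; ring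
  have huu : u * u⁻¹ = 1 := mul_inv_cancel₀ (by linarith)
  have hwr : ∀ k, w (k + 2) = w 1 * w (k + 1) - w k := by
    intro k
    rw [hw1', hw]
    simp only
    have e1 : (-1 : ℝ) ^ (k + 2) = (-1) ^ k := by rw [pow_add]; norm_num
    have e2 : (-1 : ℝ) ^ (k + 1) = -(-1) ^ k := by rw [pow_succ]; ring
    rw [e1, e2]
    have e3 : (-1 : ℝ) ^ k * (u ^ (k + 2) + u⁻¹ ^ (k + 2)) =
        -(u + u⁻¹) * (-(-1) ^ k * (u ^ (k + 1) + u⁻¹ ^ (k + 1))) -
        (-1) ^ k * ((u * u⁻¹) * u ^ k + (u * u⁻¹) * u⁻¹ ^ k) := by ring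
    rw [e3, huu, one_mul, one_mul]
  obtain ⟨A, B, -, -, h1, h2, -, -⟩ := cheb s hs z w hz0 hz1 hzr hw0 hw1 hwr N
  have hzN : z N = 2 := by rw [hz]; simp only; rw [hNω]; norm_num
  have hB : B = 0 := by
    by_contra hB
    apply hsirr
    refine ⟨(2 * (2 - A) / B + 3 : ℚ), ?_⟩
    have hBr : (B : ℝ) ≠ 0 := by exact_mod_cast hB
    push_cast
    rw [hzN, hz1] at h1
    field_simp
    linarith
  rw [hB] at h1 h2
  have hA : (A : ℝ) = 2 := by rw [hzN] at h1; push_cast at h1; linarith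
  have hwN : w N = 2 := by rw [h2, hA]; push_cast; ring
  have hev : (-1 : ℝ) ^ N = 1 := by rw [hN, pow_mul]; norm_num
  rw [hw] at hwN
  simp only at hwN
  rw [hev, one_mul] at hwN
  have hp : 1 < u ^ N := one_lt_pow₀ hu1 hN0.ne'
  have hinv : u⁻¹ ^ N = (u ^ N)⁻¹ := inv_pow u N
  rw [hinv] at hwN
  have hpos : 0 < u ^ N := by linarith
  have h5 : u ^ N * (u ^ N)⁻¹ = 1 := mul_inv_cancel₀ hpos.ne'
  nlinarith [sq_nonneg (u ^ N - 1)]

/-- natural multiples of an irrational rotation come back everywhere -/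
lemma dense_mult (α β δ : ℝ) (hα : Irrational (α / Real.pi)) (hδ : 0 < δ) (K : ℕ) :
    ∃ k : ℕ, K ≤ k ∧ ∃ l : ℤ, |k * α - β - l * Real.pi| < δ := by
  have : Fact (0 < Real.pi) := ⟨Real.pi_pos⟩
  have hd : DenseRange (fun n : ℤ => n • (α : AddCircle Real.pi)) :=
    AddCircle.denseRange_zsmul_coe_iff.2 hα
  have hcl : (β : AddCircle Real.pi) ∈
      (AddSubgroup.zmultiples (α : AddCircle Real.pi)).topologicalClosure := by
    have h1 := hd (β : AddCircle Real.pi)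
    exact h1
  have hm := mapClusterPt_atTop_nsmul_iff_mem_topologicalClosure_zmultiples.2 hcl
  rw [mapClusterPt_iff_frequently] at hm
  have hb := hm (Metric.ball (β : AddCircle Real.pi) δ) (Metric.ball_mem_nhds _ hδ)
  rw [Filter.frequently_atTop] at hb
  obtain ⟨k, hk, hkb⟩ := hb K
  refine ⟨k, hk, ?_⟩
  rw [Metric.mem_ball, dist_eq_norm] at hkb
  have h2 : (k • (α : AddCircle Real.pi) - (β : AddCircle Real.pi)) =
      ((k * α - β : ℝ) : AddCircle Real.pi) := by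
    rw [AddCircle.coe_sub, ← nsmul_eq_mul, AddCircle.coe_nsmul]
  rw [h2, AddCircle.norm_eq] at hkb
  exact ⟨round (Real.pi⁻¹ * (k * α - β)), hkb⟩

end Pool.Agent.N446.FD
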