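import Mathlib

set_option autoImplicit false

namespace Pool.Agent.N446.FD

open Finset

/-- The `m × n` grid graph: Cartesian product of two paths. -/
def grid (m n : ℕ) : SimpleGraph (Fin m × Fin n) :=
  (SimpleGraph.pathGraph m).boxProd (SimpleGraph.pathGraph n)

open Classical in
/-- `x` is a fractional dominating function of `G`: values in `[0,1]`, sum at least `1` over every
closed neighbourhood. -/
def IsFracDom {V : Type} [Fintype V] (G : SimpleGraph V) (x : V → ℝ) : Prop :=
  (∀ v, 0 ≤ x v ∧ x v ≤ 1) ∧ ∀ v, 1 ≤ x v + ∑ u, if G.Adj v u then x u else 0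

/-- The fractional domination number. -/
noncomputable def fracDom {V : Type} [Fintype V] (G : SimpleGraph V) : ℝ :=
  sInf {s | ∃ x, IsFracDom G x ∧ s = ∑ v, x v}

open Classical in
/-- A nonnegative solution of `N x = 1` is optimal. -/
lemma fracDom_eq {V : Type} [Fintype V] (G : SimpleGraph V) (x : V → ℝ) (h0 : ∀ v, 0 ≤ x v)
    (h1 : ∀ v, x v + (∑ u, if G.Adj v u then x u else 0) = 1) : fracDom G = ∑ v, x v := by
  have hle : ∀ v, x v ≤ 1 := by
    intro v
    have h2 := h1 v
    have h3 : 0 ≤ ∑ u, if G.Adj v u then x u else 0 := by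
      apply Finset.sum_nonneg
      intro u _
      split_ifs
      · exact h0 u
      · exact le_refl _
    linarith
  have hx : IsFracDom G x := ⟨fun v => ⟨h0 v, hle v⟩, fun v => (h1 v).ge⟩
  have hlb : ∀ s ∈ {s | ∃ x, IsFracDom G x ∧ s = ∑ v, x v}, ∑ v, x v ≤ s := by
    rintro s ⟨z, hz, rfl⟩
    have hsw : ∑ v, z v * (∑ u, if G.Adj v u then x u else 0) =
        ∑ v, x v * (∑ u, if G.Adj v u then z u else 0) := by
      simp only [Finset.mul_sum, mul_ite, mul_zero]
      rw [Finset.sum_comm]
      apply Finset.sum_congr rfl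
      intro v _
      apply Finset.sum_congr rfl
      intro u _
      rw [G.adj_comm u v, mul_comm]
    calc ∑ v, x v = ∑ v, x v * 1 := by simp
      _ ≤ ∑ v, x v * (z v + ∑ u, if G.Adj v u then z u else 0) := by
          apply Finset.sum_le_sum
          intro v _
          exact mul_le_mul_of_nonneg_left (hz.2 v) (h0 v)
      _ = ∑ v, z v * (x v + ∑ u, if G.Adj v u then x u else 0) := by
          simp only [mul_add, Finset.sum_add_distrib]
          rw [hsw]
          congr 1
          apply Finset.sum_congr rfl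
          intro v _
          ring
      _ = ∑ v, z v := by
          apply Finset.sum_congr rfl
          intro v _
          rw [h1 v, mul_one]
  apply le_antisymm
  · exact csInf_le ⟨_, hlb⟩ ⟨x, hx, rfl⟩
  · exact le_csInf ⟨_, x, hx, rfl⟩ hlb

open Classical in
lemma path_sum (n : ℕ) (X : ℕ → ℝ) (h0 : X 0 = 0) (hn : X (n + 1) = 0) (j : Fin n) :
    (∑ k : Fin n, if (SimpleGraph.pathGraph n).Adj j k then X (k.val + 1) else 0) =
      X j.val + X (j.val + 2) := by
  have h1 : ∀ k : Fin n, (if (SimpleGraph.pathGraph n).Adj j k then X (k.val + 1) else 0) =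
      (if k.val + 1 = j.val then X (j.val) else 0) +
      (if k.val = j.val + 1 then X (j.val + 2) else 0) := by
    intro k
    rw [if_congr SimpleGraph.pathGraph_adj rfl rfl]
    by_cases ha : k.val + 1 = j.val
    · have hb : ¬ k.val = j.val + 1 := by omega
      rw [if_pos (Or.inr ha), if_pos ha, if_neg hb, add_zero, ha]
    · by_cases hb : k.val = j.val + 1
      · rw [if_pos (Or.inl hb.symm), if_neg ha, if_pos hb, zero_add, hb]
      · have : ¬ (j.val + 1 = k.val ∨ k.val + 1 = j.val) := by omega
        rw [if_neg this, if_neg ha, if_neg hb, add_zero]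
  rw [Finset.sum_congr rfl (fun k _ => h1 k), Finset.sum_add_distrib]
  congr 1
  · by_cases hj : j.val = 0
    · rw [hj, h0]; simp
    · have h2 : ∀ k : Fin n, (k.val + 1 = j.val) ↔ k = ⟨j.val - 1, by omega⟩ := by
        intro k; rw [Fin.ext_iff]; simp only; omega
      simp only [h2]
      simp
  · by_cases hj : j.val + 1 = n
    · have : X (j.val + 2) = 0 := by
        have : j.val + 2 = n + 1 := by omega
        rw [this, hn]
      rw [this]; simp
    · have hj2 : j.val + 1 < n := by have := j.isLt; omega
      have h2 : ∀ k : Fin n, (k.val = j.val + 1) ↔ k = ⟨j.val + 1, hj2⟩ := by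
        intro k; rw [Fin.ext_iff]
      simp only [h2]
      simp

open Classical in
lemma box_sum (m n : ℕ) (x : Fin m × Fin n → ℝ) (v : Fin m × Fin n) :
    (∑ u, if (grid m n).Adj v u then x u else 0) =
      (∑ i : Fin m, if (SimpleGraph.pathGraph m).Adj v.1 i then x (i, v.2) else 0) +
      (∑ k : Fin n, if (SimpleGraph.pathGraph n).Adj v.2 k then x (v.1, k) else 0) := by
  obtain ⟨a, b⟩ := v
  rw [Fintype.sum_prod_type]
  have h1 : ∀ i : Fin m, (∑ k : Fin n, if (grid m n).Adj (a, b) (i, k) then x (i, k) else 0) =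
      (if (SimpleGraph.pathGraph m).Adj a i then x (i, b) else 0) +
      (if i = a then (∑ k : Fin n, if (SimpleGraph.pathGraph n).Adj b k then x (a, k) else 0)
        else 0) := by
    intro i
    have h2 : ∀ k : Fin n, (if (grid m n).Adj (a, b) (i, k) then x (i, k) else 0) =
        (if k = b then (if (SimpleGraph.pathGraph m).Adj a i then x (i, b) else 0) else 0) +
        (if i = a then (if (SimpleGraph.pathGraph n).Adj b k then x (a, k) else 0) else 0) := by
      intro k
      have h3 : (grid m n).Adj (a, b) (i, k) ↔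
          ((SimpleGraph.pathGraph m).Adj a i ∧ b = k) ∨
          ((SimpleGraph.pathGraph n).Adj b k ∧ a = i) := by
        unfold grid
        rw [SimpleGraph.boxProd_adj]
      rw [if_congr h3 rfl rfl]
      by_cases hk : k = b
      · subst hk
        by_cases hi : i = a
        · subst hi; simp
        · have : ¬ a = i := fun h => hi h.symm
          simp [hi, this]
      · have hk' : ¬ b = k := fun h => hk h.symm
        by_cases hi : i = a
        · subst hi; simp [hk, hk']
        · have : ¬ a = i := fun h => hi h.symm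
          simp [hi, this, hk, hk']
    rw [Finset.sum_congr rfl (fun k _ => h2 k), Finset.sum_add_distrib]
    congr 1
    · simp
    · split_ifs
      · rfl
      · simp
  rw [Finset.sum_congr rfl (fun i _ => h1 i), Finset.sum_add_distrib]
  congr 1
  simp

/-- The `4 × n` grid: a nonnegative solution gives the fractional domination number. -/
lemma grid4 (n : ℕ) (a b : ℕ → ℝ) (ha0 : a 0 = 0) (hb0 : b 0 = 0) (han : a (n + 1) = 0)
    (hbn : b (n + 1) = 0) (hpa : ∀ j, 1 ≤ j → j ≤ n → 0 ≤ a j) (hpb : ∀ j, 1 ≤ j → j ≤ n → 0 ≤ b j)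
    (h1 : ∀ j, j < n → a j + a (j + 1) + a (j + 2) + b (j + 1) = 1)
    (h2 : ∀ j, j < n → b j + 2 * b (j + 1) + b (j + 2) + a (j + 1) = 1) :
    fracDom (grid 4 n) = ∑ j ∈ range n, 2 * (a (j + 1) + b (j + 1)) := by
  classical
  have hadj : ∀ i k : Fin 4, (SimpleGraph.pathGraph 4).Adj i k ↔
      (i.val + 1 = k.val ∨ k.val + 1 = i.val) := fun i k => SimpleGraph.pathGraph_adj
  rw [fracDom_eq (grid 4 n)
    (fun v => if v.1 = 0 ∨ v.1 = 3 then a (v.2.val + 1) else b (v.2.val + 1))]
  · rw [Fintype.sum_prod_type, Fin.sum_univ_four, Finset.sum_range]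
    simp only [Fin.isValue, true_or, or_true, if_true]
    rw [← Finset.sum_add_distrib, ← Finset.sum_add_distrib, ← Finset.sum_add_distrib]
    apply Finset.sum_congr rfl
    intro j _
    have e1 : ¬ ((1 : Fin 4) = 0 ∨ (1 : Fin 4) = 3) := by decide
    have e2 : ¬ ((2 : Fin 4) = 0 ∨ (2 : Fin 4) = 3) := by decide
    rw [if_neg e1, if_neg e2]
    ring
  · intro v
    have hlt := v.2.isLt
    show 0 ≤ (if v.1 = 0 ∨ v.1 = 3 then a (v.2.val + 1) else b (v.2.val + 1))
    split_ifs
    · exact hpa _ (by omega) (by omega)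
    · exact hpb _ (by omega) (by omega)
  · rintro ⟨i, j⟩
    rw [box_sum]
    have hA := path_sum n a ha0 han j
    have hB := path_sum n b hb0 hbn j
    have hj := j.isLt
    have e1 := h1 j.val hj
    have e2 := h2 j.val hj
    have r0 : ∀ g : Fin 4 → ℝ,
        (∑ k, if (SimpleGraph.pathGraph 4).Adj 0 k then g k else 0) = g 1 := by
      intro g
      rw [Fin.sum_univ_four, if_neg (by rw [hadj]; decide), if_pos (by rw [hadj]; decide),
        if_neg (by rw [hadj]; decide), if_neg (by rw [hadj]; decide)]
      ring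
    have r1 : ∀ g : Fin 4 → ℝ,
        (∑ k, if (SimpleGraph.pathGraph 4).Adj 1 k then g k else 0) = g 0 + g 2 := by
      intro g
      rw [Fin.sum_univ_four, if_pos (by rw [hadj]; decide), if_neg (by rw [hadj]; decide),
        if_pos (by rw [hadj]; decide), if_neg (by rw [hadj]; decide)]
      ring
    have r2 : ∀ g : Fin 4 → ℝ,
        (∑ k, if (SimpleGraph.pathGraph 4).Adj 2 k then g k else 0) = g 1 + g 3 := by
      intro g
      rw [Fin.sum_univ_four, if_neg (by rw [hadj]; decide), if_pos (by rw [hadj]; decide),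
        if_neg (by rw [hadj]; decide), if_pos (by rw [hadj]; decide)]
      ring
    have r3 : ∀ g : Fin 4 → ℝ,
        (∑ k, if (SimpleGraph.pathGraph 4).Adj 3 k then g k else 0) = g 2 := by
      intro g
      rw [Fin.sum_univ_four, if_neg (by rw [hadj]; decide), if_neg (by rw [hadj]; decide),
        if_pos (by rw [hadj]; decide), if_neg (by rw [hadj]; decide)]
      ring
    have c1 : ¬ ((1 : Fin 4) = 0 ∨ (1 : Fin 4) = 3) := by decide
    have c2 : ¬ ((2 : Fin 4) = 0 ∨ (2 : Fin 4) = 3) := by decide
    have hi : i = 0 ∨ i = 1 ∨ i = 2 ∨ i = 3 := by revert i; decide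
    rcases hi with rfl | rfl | rfl | rfl
    · rw [r0]
      simp only [true_or, if_true, if_neg c1]
      rw [hA]; linarith
    · rw [r1]
      simp only [true_or, if_true, if_neg c1, if_neg c2]
      rw [hB]; linarith
    · rw [r2]
      simp only [or_true, if_true, if_neg c1, if_neg c2]
      rw [hB]; linarith
    · rw [r3]
      simp only [or_true, if_true, if_neg c2]
      rw [hA]; linarith

end Pool.Agent.N446.FD
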