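import Mathlib
import Pool.Agent.N446.FD.Grid

set_option autoImplicit false

namespace Pool.Agent.N446.FD

open Finset Filter Topology

lemma sum_rec (n : ℕ) (Z : ℕ → ℝ) (c : ℝ) (h0 : Z 0 = 0) (hn : Z (n + 1) = 0)
    (h : ∀ j, j < n → Z j + c * Z (j + 1) + Z (j + 2) = 1) :
    (2 + c) * ∑ j ∈ range n, Z (j + 1) = n + Z 1 + Z n := by
  have h1 : ∑ j ∈ range n, (Z j + c * Z (j + 1) + Z (j + 2)) = n := by
    rw [Finset.sum_congr rfl (fun j hj => h j (Finset.mem_range.1 hj))]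
    simp
  rw [Finset.sum_add_distrib, Finset.sum_add_distrib, ← Finset.mul_sum] at h1
  have h2 : ∑ j ∈ range n, Z j + Z n = ∑ j ∈ range n, Z (j + 1) := by
    rw [← Finset.sum_range_succ, Finset.sum_range_succ', h0, add_zero]
  have h3 : Z 1 + ∑ j ∈ range n, Z (j + 2) = ∑ j ∈ range n, Z (j + 1) := by
    have h4 := Finset.sum_range_succ (fun j => Z (j + 1)) n
    have h5 := Finset.sum_range_succ' (fun j => Z (j + 1)) n
    rw [h4] at h5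
    simp only [zero_add] at h5
    rw [hn] at h5
    linarith
  linarith

lemma pow_bound1 (t : ℝ) (h1 : -0.4644 < t) (h2 : t < -0.4642) (j : ℕ) (hj : 1 ≤ j) :
    t ^ j ≤ 0.2157 := by
  have hsq : t ^ 2 ≤ 0.2157 := by nlinarith
  have hsq0 : 0 ≤ t ^ 2 := sq_nonneg t
  rcases Nat.even_or_odd j with ⟨i, hi⟩ | hodd
  · have : t ^ j = (t ^ 2) ^ i := by rw [← pow_mul]; congr 1; omega
    rw [this]
    calc (t ^ 2) ^ i ≤ (t ^ 2) ^ 1 := pow_le_pow_of_le_one hsq0 (by linarith) (by omega)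
      _ ≤ _ := by rw [pow_one]; exact hsq
  · have : t ^ j ≤ 0 := (hodd.pow_neg (by linarith)).le
    linarith

lemma pow_bound3 (t : ℝ) (h1 : -0.4644 < t) (h2 : t < -0.4642) (j : ℕ) (hj : 3 ≤ j) :
    t ^ j ≤ 0.0466 := by
  have hsq : t ^ 2 ≤ 0.2157 := by nlinarith
  have hsq0 : 0 ≤ t ^ 2 := sq_nonneg t
  rcases Nat.even_or_odd j with ⟨i, hi⟩ | hodd
  · have : t ^ j = (t ^ 2) ^ i := by rw [← pow_mul]; congr 1; omega
    rw [this]
    calc (t ^ 2) ^ i ≤ (t ^ 2) ^ 2 := pow_le_pow_of_le_one hsq0 (by linarith) (by omega)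
      _ ≤ _ := by nlinarith
  · have : t ^ j ≤ 0 := (hodd.pow_neg (by linarith)).le
    linarith

lemma pow_lower (t : ℝ) (h1 : -0.4644 < t) (h2 : t < -0.4642) (j : ℕ) (hj : 6 ≤ j) :
    -0.0102 ≤ t ^ j := by
  have habs : |t| ≤ 0.4644 := by rw [abs_le]; constructor <;> linarith
  have h3 : |t ^ j| ≤ 0.4644 ^ 6 := by
    rw [abs_pow]
    calc |t| ^ j ≤ |t| ^ 6 := pow_le_pow_of_le_one (abs_nonneg t) (by linarith) hj
      _ ≤ _ := pow_le_pow_left₀ (abs_nonneg t) habs 6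
  have h4 := (abs_le.1 h3).1
  norm_num at h4 ⊢
  linarith

/-- constants -/
lemma consts : ∃ s φ M μ α β t ω : ℝ, s ^ 2 = 5 ∧ 2.236 < s ∧ s < 2.2361 ∧ φ = (1 + s) / 2 ∧
    M = φ + 1 ∧ μ = 2 - φ ∧ α + β = 1 ∧ α * φ - β * (φ - 1) = 1 ∧ 0.7236 < α ∧ α < 0.7237 ∧
    t ^ 2 + M * t + 1 = 0 ∧ -0.4644 < t ∧ t < -0.4642 ∧ 2 * Real.cos ω = -μ ∧ 0 < Real.sin ω := by
  have hs2 : Real.sqrt 5 ^ 2 = 5 := Real.sq_sqrt (by norm_num)
  have hs0 : 0 ≤ Real.sqrt 5 := Real.sqrt_nonneg 5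
  have hsl : 2.236 < Real.sqrt 5 := by
    apply Real.lt_sqrt_of_sq_lt; norm_num
  have hsu : Real.sqrt 5 < 2.2361 := by
    rw [Real.sqrt_lt' (by norm_num)]; norm_num
  obtain ⟨s, hs⟩ : ∃ s, s = Real.sqrt 5 := ⟨_, rfl⟩
  rw [← hs] at hs2 hs0 hsl hsu
  have hM : 4 < ((3 + s) / 2) ^ 2 := by nlinarith
  obtain ⟨r, hr⟩ : ∃ r, r = Real.sqrt (((3 + s) / 2) ^ 2 - 4) := ⟨_, rfl⟩
  have hr2 : r ^ 2 = ((3 + s) / 2) ^ 2 - 4 := by rw [hr]; exact Real.sq_sqrt (by linarith)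
  have hrl : 1.6893 < r := by
    rw [hr]; apply Real.lt_sqrt_of_sq_lt; nlinarith
  have hru : r < 1.6895 := by
    rw [hr, Real.sqrt_lt' (by norm_num)]; nlinarith
  have hμ : -1 ≤ -((3 - s) / 2) / 2 := by linarith
  have hμ' : -((3 - s) / 2) / 2 ≤ 1 := by linarith
  refine ⟨s, (1 + s) / 2, (3 + s) / 2, (3 - s) / 2, ((1 + s) / 2) / s, 1 - ((1 + s) / 2) / s,
    (-((3 + s) / 2) + r) / 2, Real.arccos (-((3 - s) / 2) / 2), hs2, hsl, hsu, rfl, by ring, by ring,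
    by ring, ?_, ?_, ?_, ?_, by linarith, by linarith, ?_, ?_⟩
  · have : s ≠ 0 := by linarith
    field_simp
    nlinarith
  · rw [lt_div_iff₀ (by linarith)]; linarith
  · rw [div_lt_iff₀ (by linarith)]; linarith
  · nlinarith
  · rw [Real.cos_arccos hμ hμ']; ring
  · apply Real.sin_pos_of_pos_of_lt_pi
    · rw [Real.arccos_pos]; linarith
    · rw [Real.arccos_lt_pi]; linarith

end Pool.Agent.N446.FD
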