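import Mathlib
import Pool.Agent.N446.FD.Formula

set_option autoImplicit false

namespace Pool.Agent.N446.FD

open Finset Filter Topology

lemma formula (s φ M μ α β t ω : ℝ) (hs : s ^ 2 = 5) (hs1 : 2.236 < s) (hs2 : s < 2.2361)
    (hφ : φ = (1 + s) / 2) (hM : M = φ + 1) (hμ : μ = 2 - φ) (hαβ : α + β = 1)
    (hαφ : α * φ - β * (φ - 1) = 1) (hα1 : 0.7236 < α) (hα2 : α < 0.7237)
    (ht : t ^ 2 + M * t + 1 = 0) (ht1 : -0.4644 < t) (ht2 : t < -0.4642)
    (hω : 2 * Real.cos ω = -μ) (n : ℕ) (hn : 5 ≤ n) (Ω : ℝ) (hΩ : Ω = ω * (n + 1) / 2)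
    (hc : Real.cos Ω ≠ 0) (T : ℝ) (hT : T = Real.sin Ω / Real.cos Ω) (hT1 : |T| ≤ 1 / 10) :
    fracDom (grid 4 n) = (2 * α * M / (2 + M) + 2 * β * μ / (2 + μ)) * n +
      (4 * α * M / (2 + M) * (1 / (2 + M) * (1 - (t ^ 1 + t ^ n) / (1 + t ^ (n + 1)))) +
       4 * β * μ / (2 + μ) * (1 / (2 + μ) * (1 - (Real.cos ω + Real.sin ω * T)))) := by
  have hφ1 : 1.618 < φ := by rw [hφ]; linarith
  have hφ2 : φ < 1.61806 := by rw [hφ]; linarith
  have hφsq : φ ^ 2 = φ + 1 := by rw [hφ]; nlinarith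
  have hMpos : 0 < 2 + M := by linarith
  have hμpos : 0 < 2 + μ := by linarith
  have hβ1 : 0.2763 < β := by linarith
  have hβ2 : β < 0.2764 := by linarith
  obtain ⟨D, hD⟩ : ∃ D, D = 1 + t ^ (n + 1) := ⟨_, rfl⟩
  have hDl : 0.9898 ≤ D := by
    have := pow_lower t ht1 ht2 (n + 1) (by omega)
    rw [hD]; linarith
  have hD0 : D ≠ 0 := by linarith
  obtain ⟨Y, hY⟩ : ∃ Y : ℕ → ℝ, Y = fun j => 1 / (2 + M) * (1 - (t ^ j + t ^ (n + 1 - j)) / D) :=
    ⟨_, rfl⟩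
  obtain ⟨y, hy⟩ : ∃ y : ℕ → ℝ, y = fun (j : ℕ) => 1 / (2 + μ) *
    (1 - Real.cos (ω * (j : ℝ) - Ω) / Real.cos Ω) := ⟨_, rfl⟩
  have hY0 : Y 0 = 0 := by
    rw [hY]
    simp only [pow_zero, Nat.sub_zero]
    rw [← hD, div_self hD0]; ring
  have hYn : Y (n + 1) = 0 := by
    rw [hY]
    simp only [Nat.sub_self, pow_zero]
    rw [add_comm (t ^ (n + 1)) 1, ← hD, div_self hD0]; ring
  have hy0 : y 0 = 0 := by
    rw [hy]
    simp only [Nat.cast_zero, mul_zero, zero_sub, Real.cos_neg]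
    rw [div_self hc]; ring
  have hyn : y (n + 1) = 0 := by
    rw [hy]
    have : ω * ((n + 1 : ℕ) : ℝ) - Ω = Ω := by rw [hΩ]; push_cast; ring
    simp only [this]
    rw [div_self hc]; ring
  have hYrec : ∀ j, j < n → Y j + M * Y (j + 1) + Y (j + 2) = 1 := by
    intro j hj
    obtain ⟨k, hk⟩ : ∃ k, n = j + 1 + k := ⟨n - 1 - j, by omega⟩
    have e1 : n + 1 - j = k + 2 := by omega
    have e2 : n + 1 - (j + 1) = k + 1 := by omega
    have e3 : n + 1 - (j + 2) = k := by omega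
    rw [hY]
    simp only [e1, e2, e3]
    have f1 : t ^ j + M * t ^ (j + 1) + t ^ (j + 2) = 0 := by
      calc t ^ j + M * t ^ (j + 1) + t ^ (j + 2) = t ^ j * (t ^ 2 + M * t + 1) := by ring
        _ = 0 := by rw [ht, mul_zero]
    have f2 : t ^ (k + 2) + M * t ^ (k + 1) + t ^ k = 0 := by
      calc t ^ (k + 2) + M * t ^ (k + 1) + t ^ k = t ^ k * (t ^ 2 + M * t + 1) := by ring
        _ = 0 := by rw [ht, mul_zero]
    have hM0 : (2 + M) ≠ 0 := hMpos.ne'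
    have e4 : 1 / (2 + M) * (1 - (t ^ j + t ^ (k + 2)) / D) +
        M * (1 / (2 + M) * (1 - (t ^ (j + 1) + t ^ (k + 1)) / D)) +
        1 / (2 + M) * (1 - (t ^ (j + 2) + t ^ k) / D) =
        1 / (2 + M) * ((2 + M) - ((t ^ j + M * t ^ (j + 1) + t ^ (j + 2)) +
          (t ^ (k + 2) + M * t ^ (k + 1) + t ^ k)) / D) := by ring
    rw [e4, f1, f2]
    field_simp
    ring
  have hyrec : ∀ j, j < n → y j + μ * y (j + 1) + y (j + 2) = 1 := by
    intro j hj
    rw [hy]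
    simp only
    obtain ⟨θ, hθ⟩ : ∃ θ, θ = ω * ((j + 1 : ℕ) : ℝ) - Ω := ⟨_, rfl⟩
    have e1 : ω * (j : ℝ) - Ω = θ - ω := by rw [hθ]; push_cast; ring
    have e2 : ω * ((j + 2 : ℕ) : ℝ) - Ω = θ + ω := by rw [hθ]; push_cast; ring
    rw [e1, e2, ← hθ, Real.cos_sub, Real.cos_add]
    have hμ0 : (2 + μ) ≠ 0 := hμpos.ne'
    have hcω : Real.cos ω = -μ / 2 := by linarith
    rw [hcω]
    field_simp
    ring
  obtain ⟨a, ha⟩ : ∃ a : ℕ → ℝ, a = fun j => α * Y j + β * y j := ⟨_, rfl⟩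
  obtain ⟨b, hb⟩ : ∃ b : ℕ → ℝ, b = fun j => α * φ * Y j - β * (φ - 1) * y j := ⟨_, rfl⟩
  -- bounds
  have hYl : ∀ j, 1 ≤ j → j ≤ n → 0.159 ≤ Y j := by
    intro j hj1 hj2
    have hsum : t ^ j + t ^ (n + 1 - j) ≤ 0.2623 := by
      rcases Nat.lt_or_ge j 3 with h3 | h3
      · have h4 := pow_bound1 t ht1 ht2 j hj1
        have h5 := pow_bound3 t ht1 ht2 (n + 1 - j) (by omega)
        linarith
      · have h4 := pow_bound3 t ht1 ht2 j h3
        have h5 := pow_bound1 t ht1 ht2 (n + 1 - j) (by omega)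
        linarith
    have h6 : (t ^ j + t ^ (n + 1 - j)) / D ≤ 0.2651 := by
      rw [div_le_iff₀ (by linarith)]
      nlinarith
    have h7 : 0.2165 ≤ 1 / (2 + M) := by
      rw [le_div_iff₀ hMpos]; nlinarith
    rw [hY]
    simp only
    nlinarith
  have hcos : Real.cos Ω ^ 2 * (1 + T ^ 2) = 1 := by
    rw [hT]
    have := Real.sin_sq_add_cos_sq Ω
    field_simp
    linarith
  have hT2 : T ^ 2 ≤ 0.01 := by
    have h3 := abs_le.1 hT1
    nlinarith [h3.1, h3.2]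
  have hyb : ∀ j, -0.0022 ≤ y j ∧ y j ≤ 0.8418 := by
    intro j
    have hu2 : (Real.cos (ω * j - Ω) / Real.cos Ω) ^ 2 ≤ 1.01 := by
      rw [div_pow, div_le_iff₀ (by positivity)]
      have h3 : Real.cos (ω * j - Ω) ^ 2 ≤ 1 := Real.cos_sq_le_one _
      nlinarith [sq_nonneg (Real.cos Ω)]
    have hu : |Real.cos (ω * j - Ω) / Real.cos Ω| ≤ 1.005 := by
      apply abs_le_of_sq_le_sq' _ (by norm_num) |> abs_le.2
      calc (Real.cos (ω * j - Ω) / Real.cos Ω) ^ 2 ≤ 1.01 := hu2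
        _ ≤ 1.005 ^ 2 := by norm_num
    have hu' := abs_le.1 hu
    have h7 : 1 / (2 + μ) ≤ 0.41984 := by
      rw [div_le_iff₀ hμpos]; nlinarith
    have h8 : 0 < 1 / (2 + μ) := by positivity
    rw [hy]
    simp only
    constructor
    · nlinarith [hu'.1, hu'.2]
    · nlinarith [hu'.1, hu'.2]
  have hpa : ∀ j, 1 ≤ j → j ≤ n → 0 ≤ a j := by
    intro j h1 h2
    have h3 := hYl j h1 h2
    have h4 := (hyb j).1
    rw [ha]
    simp only
    nlinarith
  have hpb : ∀ j, 1 ≤ j → j ≤ n → 0 ≤ b j := by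
    intro j h1 h2
    have h3 := hYl j h1 h2
    have h4 := (hyb j).2
    have h5 := (hyb j).1
    rw [hb]
    simp only
    have h6 : 1.1707 ≤ α * φ := by nlinarith
    have h7 : β * (φ - 1) ≤ 0.1709 := by nlinarith
    have h8 : 0 ≤ β * (φ - 1) := by nlinarith
    nlinarith
  have hφφ : φ * φ = φ + 1 := by nlinarith
  have key := grid4 n a b
    (by rw [ha]; simp only; rw [hY0, hy0]; ring)
    (by rw [hb]; simp only; rw [hY0, hy0]; ring)
    (by rw [ha]; simp only; rw [hYn, hyn]; ring)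
    (by rw [hb]; simp only; rw [hYn, hyn]; ring) hpa hpb
    (by
      intro j hj
      have r1 := hYrec j hj
      have r2 := hyrec j hj
      rw [ha, hb]
      simp only
      have : α * Y j + β * y j + (α * Y (j + 1) + β * y (j + 1)) + (α * Y (j + 2) + β * y (j + 2)) +
          (α * φ * Y (j + 1) - β * (φ - 1) * y (j + 1)) =
          α * (Y j + M * Y (j + 1) + Y (j + 2)) + β * (y j + μ * y (j + 1) + y (j + 2)) := by
        rw [hM, hμ]; ring
      rw [this, r1, r2]; linarith)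
    (by
      intro j hj
      have r1 := hYrec j hj
      have r2 := hyrec j hj
      rw [ha, hb]
      simp only
      have : α * φ * Y j - β * (φ - 1) * y j + 2 * (α * φ * Y (j + 1) - β * (φ - 1) * y (j + 1)) +
          (α * φ * Y (j + 2) - β * (φ - 1) * y (j + 2)) + (α * Y (j + 1) + β * y (j + 1)) =
          α * φ * (Y j + M * Y (j + 1) + Y (j + 2)) -
          β * (φ - 1) * (y j + μ * y (j + 1) + y (j + 2)) +
          (α * Y (j + 1) * (φ + 1 - φ * φ) + β * y (j + 1) * (φ + 1 - φ * φ)) := by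
        rw [hM, hμ]; ring
      rw [this, r1, r2, hφφ]; linarith)
  rw [key]
  have sY := sum_rec n Y M hY0 hYn hYrec
  have sy := sum_rec n y μ hy0 hyn hyrec
  have hYY : Y n = Y 1 := by
    rw [hY]
    simp only [Nat.add_sub_cancel, Nat.add_sub_cancel_left]
    ring
  have hyy : y n = y 1 := by
    rw [hy]
    simp only
    have e1 : ω * (n : ℝ) - Ω = -(ω * ((1 : ℕ) : ℝ) - Ω) := by rw [hΩ]; push_cast; ring
    rw [e1, Real.cos_neg]
  have hy1 : y 1 = 1 / (2 + μ) * (1 - (Real.cos ω + Real.sin ω * T)) := by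
    rw [hy]
    simp only [Nat.cast_one, mul_one]
    rw [Real.cos_sub, hT]
    field_simp
  have hY1 : Y 1 = 1 / (2 + M) * (1 - (t ^ 1 + t ^ n) / (1 + t ^ (n + 1))) := by
    rw [hY]
    simp only [Nat.add_sub_cancel]
    rw [hD]
  have hsum : ∑ j ∈ range n, 2 * (a (j + 1) + b (j + 1)) =
      2 * α * M * ∑ j ∈ range n, Y (j + 1) + 2 * β * μ * ∑ j ∈ range n, y (j + 1) := by
    rw [Finset.mul_sum, Finset.mul_sum, ← Finset.sum_add_distrib]
    apply Finset.sum_congr rfl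
    intro j _
    rw [ha, hb, hM, hμ]
    ring
  rw [hsum, ← hy1, ← hY1]
  have hM0 : (2 + M) ≠ 0 := hMpos.ne'
  have hμ0 : (2 + μ) ≠ 0 := hμpos.ne'
  have sY' : ∑ j ∈ range n, Y (j + 1) = (n + 2 * Y 1) / (2 + M) := by
    rw [eq_div_iff hM0]; rw [hYY] at sY; linarith
  have sy' : ∑ j ∈ range n, y (j + 1) = (n + 2 * y 1) / (2 + μ) := by
    rw [eq_div_iff hμ0]; rw [hyy] at sy; linarith
  rw [sY', sy']
  ring

end Pool.Agent.N446.FD
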