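import Mathlib
import Pool.Agent.N446.FD.Formula2
import Pool.Agent.N446.FD.Dense

set_option autoImplicit false

namespace Pool.Agent.N446.FD

open Finset Filter Topology Polynomial

lemma poly_sign (W : ℝ[X]) : (∀ᶠ x : ℝ in atTop, 0 ≤ W.eval x) ∨
    (∀ᶠ x : ℝ in atTop, W.eval x ≤ 0) := by
  rcases lt_or_ge 0 W.degree with hd | hd
  · rcases le_total 0 W.leadingCoeff with hl | hl
    · left
      exact (W.tendsto_atTop_of_leadingCoeff_nonneg hd hl).eventually_ge_atTop 0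
    · right
      exact (W.tendsto_atBot_of_leadingCoeff_nonpos hd hl).eventually_le_atBot 0
  · rw [Polynomial.eq_C_of_degree_le_zero hd]
    simp only [eval_C]
    rcases le_total 0 (W.coeff 0) with h | h
    · left; exact Eventually.of_forall (fun _ => h)
    · right; exact Eventually.of_forall (fun _ => h)

lemma tan_small (x : ℝ) (h1 : 0.03 < x) (h2 : x < 0.09) :
    0.02 ≤ Real.sin x / Real.cos x ∧ Real.sin x / Real.cos x ≤ 1 / 10 ∧ 0 < Real.cos x := by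
  have hc : 1 - x ^ 2 / 2 ≤ Real.cos x := Real.one_sub_sq_div_two_le_cos
  have hs : Real.sin x < x := Real.sin_lt (by linarith)
  have hs2 : x - x ^ 3 / 6 < Real.sin x := Real.sin_gt_sub_cube (by linarith)
  have hc0 : 0.99 < Real.cos x := by nlinarith
  have hc1 : Real.cos x ≤ 1 := Real.cos_le_one x
  refine ⟨?_, ?_, by linarith⟩
  · rw [le_div_iff₀ (by linarith)]
    have h3 : x ^ 3 ≤ 0.001 := by
      have : x ^ 3 ≤ 0.09 ^ 3 := pow_le_pow_left₀ (by linarith) h2.le 3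
      norm_num at this ⊢
      linarith
    nlinarith
  · rw [div_le_iff₀ (by linarith)]
    linarith

/-- for arbitrarily large multiples of `q` the phase is where we want it -/
lemma phase (ω : ℝ) (hirr : Irrational (ω / Real.pi)) (q : ℕ) (hq : 0 < q) (N : ℕ) (e : ℝ)
    (he : e = 1 ∨ e = -1) :
    ∃ n : ℕ, N ≤ n ∧ n % q = 0 ∧ Real.cos (ω * (n + 1) / 2) ≠ 0 ∧
      0.02 ≤ e * (Real.sin (ω * (n + 1) / 2) / Real.cos (ω * (n + 1) / 2)) ∧
      e * (Real.sin (ω * (n + 1) / 2) / Real.cos (ω * (n + 1) / 2)) ≤ 1 / 10 := by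
  have hirr2 : Irrational ((q * ω / 2) / Real.pi) := by
    have h1 : (q * ω / 2) / Real.pi = ((q / 2 : ℚ) : ℝ) * (ω / Real.pi) := by push_cast; ring
    rw [h1]
    exact hirr.ratCast_mul (by positivity)
  obtain ⟨k, hk, l, hl⟩ := dense_mult (q * ω / 2) (e * 0.06 - ω / 2) 0.03 hirr2 (by norm_num) N
  obtain ⟨x, hx⟩ : ∃ x, x = e * (ω * (((q * k : ℕ) : ℝ) + 1) / 2 - l * Real.pi) := ⟨_, rfl⟩
  have hΩ : ω * (((q * k : ℕ) : ℝ) + 1) / 2 = e * x + l * Real.pi := by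
    rcases he with rfl | rfl <;> rw [hx] <;> ring
  have hx1 : 0.03 < x ∧ x < 0.09 := by
    have h2 := abs_lt.1 hl
    have h3 : ω * (((q * k : ℕ) : ℝ) + 1) / 2 - l * Real.pi =
        (k * (q * ω / 2) - (e * 0.06 - ω / 2) - l * Real.pi) + e * 0.06 := by
      push_cast; ring
    rw [hx, h3]
    rcases he with rfl | rfl
    · constructor <;> linarith [h2.1, h2.2]
    · constructor <;> linarith [h2.1, h2.2]
  obtain ⟨ht1, ht2, ht3⟩ := tan_small x hx1.1 hx1.2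
  have hcosne : Real.cos (e * x) = Real.cos x := by
    rcases he with rfl | rfl
    · rw [one_mul]
    · rw [neg_one_mul, Real.cos_neg]
  have hpow : ((-1 : ℝ)) ^ l ≠ 0 := zpow_ne_zero _ (by norm_num)
  have hcΩ : Real.cos (ω * (((q * k : ℕ) : ℝ) + 1) / 2) = (-1) ^ l * Real.cos x := by
    rw [hΩ, Real.cos_add_int_mul_pi, hcosne]
  have hsΩ : Real.sin (ω * (((q * k : ℕ) : ℝ) + 1) / 2) = (-1) ^ l * Real.sin (e * x) := by
    rw [hΩ, Real.sin_add_int_mul_pi]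
  have htan : e * (Real.sin (ω * (((q * k : ℕ) : ℝ) + 1) / 2) /
      Real.cos (ω * (((q * k : ℕ) : ℝ) + 1) / 2)) = Real.sin x / Real.cos x := by
    rw [hcΩ, hsΩ, mul_div_mul_left _ _ hpow]
    rcases he with rfl | rfl
    · rw [one_mul, one_mul]
    · rw [neg_one_mul, neg_one_mul, Real.sin_neg]; ring
  refine ⟨q * k, ?_, Nat.mul_mod_right q k, ?_, ?_, ?_⟩
  · calc N ≤ k := hk
      _ = 1 * k := (one_mul k).symm
      _ ≤ q * k := Nat.mul_le_mul_right _ hq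
  · rw [hcΩ]
    exact mul_ne_zero hpow ht3.ne'
  · rw [htan]; exact ht1
  · rw [htan]; exact ht2

/-- There is no explicit expression in `n` for `γ_f(P_4 × P_n)`. -/
theorem no_expr : ¬ ∃ q : ℕ, 0 < q ∧ ∃ P Q : ℕ → ℝ[X], ∃ E : Finset ℕ, ∀ n : ℕ, 4 ≤ n → n ∉ E →
    fracDom (grid 4 n) = (P (n % q)).eval (n : ℝ) / (Q (n % q)).eval (n : ℝ) := by
  rintro ⟨q, hq, P, Q, E, hE⟩
  obtain ⟨s, φ, M, μ, α, β, t, ω, hs, hs1, hs2, hφ, hM, hμ, hαβ, hαφ, hα1, hα2, ht, ht1, ht2, hω,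
    hsin⟩ := consts
  have hirr : Irrational (ω / Real.pi) := irr s ω hs (by linarith) (by rw [hω, hμ, hφ])
  have hform := formula s φ M μ α β t ω hs hs1 hs2 hφ hM hμ hαβ hαφ hα1 hα2 ht ht1 ht2 hω
  obtain ⟨lam, hlam⟩ : ∃ lam, lam = 2 * α * M / (2 + M) + 2 * β * μ / (2 + μ) := ⟨_, rfl⟩
  obtain ⟨L, hL⟩ : ∃ L : ℕ → ℝ, L = fun n =>
    4 * α * M / (2 + M) * (1 / (2 + M) * (1 - (t ^ 1 + t ^ n) / (1 + t ^ (n + 1)))) := ⟨_, rfl⟩
  obtain ⟨ℓ, hℓ⟩ : ∃ ℓ, ℓ = 4 * α * M / (2 + M) * (1 / (2 + M) * (1 - (t ^ 1 + 0) / (1 + 0))) :=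
    ⟨_, rfl⟩
  obtain ⟨K, hK⟩ : ∃ K, K = 4 * β * μ / (2 + μ) * (1 / (2 + μ)) := ⟨_, rfl⟩
  have hβ : 0 < β := by linarith
  have hμ0 : 0 < μ := by rw [hμ, hφ]; linarith
  have hM0 : 0 < M := by rw [hM, hφ]; linarith
  have hα0 : 0 < α := by linarith
  have hK0 : 0 < K := by rw [hK]; positivity
  have hlam0 : 0 < lam := by rw [hlam]; positivity
  have htabs : |t| < 1 := by rw [abs_lt]; constructor <;> linarith
  have hLlim : Tendsto L atTop (𝓝 ℓ) := by
    rw [hL, hℓ]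
    have h1 : Tendsto (fun n : ℕ => t ^ n) atTop (𝓝 0) := tendsto_pow_atTop_nhds_zero_of_abs_lt_one htabs
    have h2 : Tendsto (fun n : ℕ => t ^ (n + 1)) atTop (𝓝 0) := h1.comp (tendsto_add_atTop_nat 1)
    apply Tendsto.const_mul
    apply Tendsto.const_mul
    apply Tendsto.const_sub
    apply Tendsto.div
    · exact h1.const_add _
    · exact h2.const_add _
    · norm_num
  obtain ⟨c0, hc0⟩ : ∃ c0, c0 = ℓ + K * (1 - Real.cos ω) := ⟨_, rfl⟩
  have hη : 0 < K * Real.sin ω * 0.02 := by positivity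
  have hLe := (Metric.tendsto_atTop.1 hLlim) (K * Real.sin ω * 0.02) hη
  obtain ⟨N1, hN1⟩ := hLe
  have hval : ∀ n : ℕ, 5 ≤ n → Real.cos (ω * (n + 1) / 2) ≠ 0 →
      |Real.sin (ω * (n + 1) / 2) / Real.cos (ω * (n + 1) / 2)| ≤ 1 / 10 →
      fracDom (grid 4 n) - lam * n = L n + K * (1 - Real.cos ω) -
        K * Real.sin ω * (Real.sin (ω * (n + 1) / 2) / Real.cos (ω * (n + 1) / 2)) := by
    intro n hn hc hT
    rw [hform n hn _ rfl hc _ rfl hT, hlam, hL, hK]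
    ring
  have hlow : ∀ N : ℕ, ∃ n : ℕ, N ≤ n ∧ n % q = 0 ∧ fracDom (grid 4 n) - lam * n < c0 := by
    intro N
    obtain ⟨n, hn, hnq, hc, h1, h2⟩ := phase ω hirr q hq (N + N1 + 5) 1 (Or.inl rfl)
    rw [one_mul] at h1 h2
    refine ⟨n, by omega, hnq, ?_⟩
    rw [hval n (by omega) hc (by rw [abs_le]; constructor <;> linarith)]
    have h3 := hN1 n (by omega)
    rw [Real.dist_eq, abs_lt] at h3
    have h4 : K * Real.sin ω * 0.02 ≤ K * Real.sin ω *
        (Real.sin (ω * (n + 1) / 2) / Real.cos (ω * (n + 1) / 2)) :=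
      mul_le_mul_of_nonneg_left h1 (by positivity)
    rw [hc0]
    linarith [h3.2]
  have hhigh : ∀ N : ℕ, ∃ n : ℕ, N ≤ n ∧ n % q = 0 ∧ c0 < fracDom (grid 4 n) - lam * n := by
    intro N
    obtain ⟨n, hn, hnq, hc, h1, h2⟩ := phase ω hirr q hq (N + N1 + 5) (-1) (Or.inr rfl)
    refine ⟨n, by omega, hnq, ?_⟩
    rw [hval n (by omega) hc (by rw [abs_le]; constructor <;> linarith)]
    have h3 := hN1 n (by omega)
    rw [Real.dist_eq, abs_lt] at h3
    have h4 : K * Real.sin ω * 0.02 ≤ K * Real.sin ω *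
        (-1 * (Real.sin (ω * (n + 1) / 2) / Real.cos (ω * (n + 1) / 2))) :=
      mul_le_mul_of_nonneg_left h1 (by positivity)
    rw [hc0]
    linarith [h3.1]
  -- the rational function on the class of 0
  obtain ⟨NE, hNE⟩ : ∃ NE : ℕ, ∀ n ∈ E, n < NE := by
    refine ⟨E.sup id + 1, fun n hn => ?_⟩
    have := Finset.le_sup (f := id) hn
    simp only [id] at this
    omega
  have hEq : ∀ n : ℕ, NE + 4 ≤ n → n % q = 0 →
      fracDom (grid 4 n) = (P 0).eval (n : ℝ) / (Q 0).eval (n : ℝ) := by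
    intro n hn hnq
    have h1 := hE n (by omega) (fun h => by have := hNE n h; omega)
    rw [hnq] at h1
    exact h1
  by_cases hQ0 : Q 0 = 0
  · obtain ⟨N2, hN2⟩ := exists_nat_gt (-c0 / lam)
    obtain ⟨n, hn, hnq, hgt⟩ := hhigh (NE + 4 + N2)
    rw [hEq n (by omega) hnq, hQ0, eval_zero, div_zero] at hgt
    have h3 : (N2 : ℝ) ≤ n := by exact_mod_cast (by omega : N2 ≤ n)
    have h4 : -c0 / lam < n := by linarith
    rw [div_lt_iff₀ hlam0] at h4
    linarith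
  · obtain ⟨B, hB⟩ := (Polynomial.finite_setOfPred_isRoot hQ0).bddAbove
    have hQne : ∀ x : ℝ, B < x → (Q 0).eval x ≠ 0 := by
      intro x hx h0
      have := hB (show x ∈ {x | IsRoot (Q 0) x} from h0)
      linarith
    obtain ⟨NB, hNB⟩ := exists_nat_gt B
    obtain ⟨W, hW⟩ : ∃ W : ℝ[X], W = (P 0 - C lam * X * Q 0 - C c0 * Q 0) * Q 0 := ⟨_, rfl⟩
    have hWe : ∀ n : ℕ, NE + 4 + NB ≤ n → n % q = 0 →
        W.eval (n : ℝ) = (fracDom (grid 4 n) - lam * n - c0) * (Q 0).eval (n : ℝ) ^ 2 ∧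
        0 < (Q 0).eval (n : ℝ) ^ 2 := by
      intro n hn hnq
      have h1 : (NB : ℝ) ≤ n := by exact_mod_cast (by omega : NB ≤ n)
      have h2 := hQne n (by linarith)
      refine ⟨?_, by positivity⟩
      rw [hEq n (by omega) hnq, hW]
      simp only [eval_mul, eval_sub, eval_C, eval_X]
      field_simp
    rcases poly_sign W with h | h
    · rw [Filter.eventually_atTop] at h
      obtain ⟨b, hb⟩ := h
      obtain ⟨Nb, hNb⟩ := exists_nat_gt b
      obtain ⟨n, hn, hnq, hlt⟩ := hlow (NE + 4 + NB + Nb)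
      obtain ⟨h1, h2⟩ := hWe n (by omega) hnq
      have h3 : (Nb : ℝ) ≤ n := by exact_mod_cast (by omega : Nb ≤ n)
      have h4 := hb n (by linarith)
      rw [h1] at h4
      nlinarith
    · rw [Filter.eventually_atTop] at h
      obtain ⟨b, hb⟩ := h
      obtain ⟨Nb, hNb⟩ := exists_nat_gt b
      obtain ⟨n, hn, hnq, hgt⟩ := hhigh (NE + 4 + NB + Nb)
      obtain ⟨h1, h2⟩ := hWe n (by omega) hnq
      have h3 : (Nb : ℝ) ≤ n := by exact_mod_cast (by omega : Nb ≤ n)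
      have h4 := hb n (by linarith)
      rw [h1] at h4
      nlinarith

end Pool.Agent.N446.FD
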